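import Pool.Agent.Results.MP_dc323a_nt.ExceptionalSetTwelveElevenths
import Pool.Agent.H107.MetricFam

/-!
# The abc conjecture over the Gaussian integers for the triples `a + b = c` with `a / c` near almost every point

Let `s(lam) = min (8 lam / 7) (12 / 11) + 2 max (lam - 1) 0`, so that `s(lam) ≤ 12 / 11` for `lam ≤ 1`. For every map `φ` of
the triples to a metric space, all `lam > 0`, `σ > 0` and all points `z` outside a set of Hausdorff dimension at most
`s(lam) / σ` all but finitely many coprime triples `a + b = c` with `dist (φ (a, b, c)) z ≤ max (|a|, |b|, |c|) ^ (-σ)` satisfy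
`rad (abc) > B max (|a|, |b|, |c|) ^ lam`, for every `B`.

For almost every complex `z` this holds for all triples with `|a / c - z| ≤ max (|a|, |b|, |c|) ^ (-σ)` as soon as
`σ > s(lam) / 2`; for `lam ≤ 1`, that is, for the inequality of the abc conjecture, `σ > 6 / 11` suffices, whereas by
Dirichlet's theorem there are infinitely many such triples for all `σ < 2`. For `lam ≥ 1` the condition is
`lam < σ + 5 / 11`: the approximations with `σ` near `2` even satisfy `rad (abc) > B H ^ lam` for `lam < 27 / 11`.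
-/

set_option autoImplicit false

open Filter Topology MeasureTheory
open scoped ENNReal NNReal

namespace Pool.Agent.Results.MP_dc323a_nt.NearAlmostEveryPoint

open ExceptionalSetTwelveElevenths (IsPrimeSystem height Exc)

/-- the exponent of the number of the exceptional triples -/
noncomputable def expo (lam : ℝ) : ℝ := min (8 * lam / 7) (12 / 11) + 2 * max (lam - 1) 0

/-- coprime triples `a + b = c` of nonzero Gaussian integers -/
def Triple (t : GaussianInt × GaussianInt × GaussianInt) : Prop :=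
  t.1 ≠ 0 ∧ t.2.1 ≠ 0 ∧ t.2.2 ≠ 0 ∧ t.1 + t.2.1 = t.2.2 ∧ IsCoprime t.1 t.2.1

/-- `rad (abc) > y`: for each set of representatives of the Gaussian primes dividing `abc` -/
def RadGt (t : GaussianInt × GaussianInt × GaussianInt) (y : ℝ) : Prop :=
  ∀ S : Finset GaussianInt, IsPrimeSystem S (t.1 * t.2.1 * t.2.2) → y < ∏ Q ∈ S, ‖GaussianInt.toComplex Q‖

theorem expo_nonneg {lam : ℝ} (h : 0 < lam) : 0 ≤ expo lam :=
  add_nonneg (le_min (by positivity) (by norm_num)) (mul_nonneg two_pos.le (le_max_right _ _))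

theorem one_le_height {t : GaussianInt × GaussianInt × GaussianInt} (ht : t.1 ≠ 0) : 1 ≤ height t := by
  have h1 : (1 : ℝ) ≤ ‖GaussianInt.toComplex t.1‖ ^ 2 := by
    rw [← Pool.Agent.W17.AB.nm_real]
    have h2 : 0 < Pool.Agent.W17.AB.nm t.1 := by
      rcases Nat.eq_zero_or_pos (Pool.Agent.W17.AB.nm t.1) with h | h
      · exfalso
        have h3 := Pool.Agent.W17.AB.nm_real t.1
        rw [h, Nat.cast_zero] at h3
        have h4 : GaussianInt.toComplex t.1 = 0 := by
          have h5 : ‖GaussianInt.toComplex t.1‖ ^ 2 = 0 := h3.symm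
          exact norm_eq_zero.1 (pow_eq_zero_iff two_ne_zero |>.1 h5)
        exact ht (GaussianInt.toComplex_eq_zero.1 h4)
      · exact h
    exact_mod_cast h2
  have h2 : (1 : ℝ) ≤ ‖GaussianInt.toComplex t.1‖ := by
    by_contra hcon
    push Not at hcon
    nlinarith [norm_nonneg (GaussianInt.toComplex t.1)]
  exact h2.trans (le_max_left _ _)

/-- the exceptional triples -/
def Bad (B lam : ℝ) : Set (GaussianInt × GaussianInt × GaussianInt) :=
  {t | Triple t ∧ ¬ RadGt t (B * height t ^ lam)}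

theorem bad_iff (B lam X : ℝ) (t : GaussianInt × GaussianInt × GaussianInt) :
    t ∈ Exc B lam X ↔ t ∈ Bad B lam ∧ height t ≤ X := by
  constructor
  · rintro ⟨h1, h2, h3, h4, h5, h6, S, hS, h7⟩
    exact ⟨⟨⟨h1, h2, h3, h4, h5⟩, fun h => absurd (h S hS) (not_lt.2 h7)⟩, h6⟩
  · rintro ⟨⟨⟨h1, h2, h3, h4, h5⟩, h7⟩, h6⟩
    unfold RadGt at h7
    push Not at h7
    obtain ⟨S, hS, h8⟩ := h7
    exact ⟨h1, h2, h3, h4, h5, h6, S, hS, h8⟩

/-- the count -/
theorem count (k : ℕ) {lam ε : ℝ} (hlam : 0 < lam) (hε : 0 < ε) : ∃ C : ℝ, ∀ X : ℝ, 1 ≤ X →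
    {t : {t : GaussianInt × GaussianInt × GaussianInt // t.1 ≠ 0} |
      t ∈ {t : {t : GaussianInt × GaussianInt × GaussianInt // t.1 ≠ 0} | t.1 ∈ Bad (k : ℝ) lam} ∧
        height t.1 ≤ X}.Finite ∧
    (({t : {t : GaussianInt × GaussianInt × GaussianInt // t.1 ≠ 0} |
      t ∈ {t : {t : GaussianInt × GaussianInt × GaussianInt // t.1 ≠ 0} | t.1 ∈ Bad (k : ℝ) lam} ∧
        height t.1 ≤ X}.ncard : ℕ) : ℝ) ≤ C * X ^ (expo lam + ε) := by
  obtain ⟨C, hC⟩ := ExceptionalSetTwelveElevenths.result (k : ℝ) lam ε hlam hε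
  refine ⟨C, fun X hX => ?_⟩
  obtain ⟨h1, h2⟩ := hC X hX
  have hsub : Subtype.val '' {t : {t : GaussianInt × GaussianInt × GaussianInt // t.1 ≠ 0} |
      t ∈ {t : {t : GaussianInt × GaussianInt × GaussianInt // t.1 ≠ 0} | t.1 ∈ Bad (k : ℝ) lam} ∧
        height t.1 ≤ X} ⊆ Exc (k : ℝ) lam X := by
    rintro _ ⟨t, ⟨ht, htX⟩, rfl⟩
    exact (bad_iff _ _ _ _).2 ⟨ht, htX⟩
  refine ⟨Set.Finite.of_finite_image (h1.subset hsub) Subtype.val_injective.injOn, ?_⟩
  rw [← Set.ncard_image_of_injective _ Subtype.val_injective]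
  exact (show ((_ : ℕ) : ℝ) ≤ ((Exc (k : ℝ) lam X).ncard : ℝ) by
    exact_mod_cast Set.ncard_le_ncard hsub h1).trans h2

/-- the exceptional triples near `z` -/
def BadNear {M : Type} [MetricSpace M] (φ : GaussianInt × GaussianInt × GaussianInt → M) (B lam σ : ℝ) (z : M) :
    Set (GaussianInt × GaussianInt × GaussianInt) :=
  {t | Triple t ∧ dist (φ t) z ≤ height t ^ (-σ) ∧ ¬ RadGt t (B * height t ^ lam)}

theorem near_finite {M : Type} [MetricSpace M] {φ : GaussianInt × GaussianInt × GaussianInt → M} {lam σ : ℝ} {z : M}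
    (h : ∀ k : ℕ, {t : {t : GaussianInt × GaussianInt × GaussianInt // t.1 ≠ 0} |
      t ∈ {t : {t : GaussianInt × GaussianInt × GaussianInt // t.1 ≠ 0} | t.1 ∈ Bad (k : ℝ) lam} ∧
        dist (φ t.1) z ≤ (height t.1) ^ (-σ)}.Finite) (B : ℝ) : (BadNear φ B lam σ z).Finite := by
  obtain ⟨k, hk⟩ := exists_nat_ge B
  refine ((h k).image Subtype.val).subset ?_
  rintro t ⟨h1, h2, h3⟩
  refine ⟨⟨t, h1.1⟩, ⟨⟨h1, fun h4 => h3 fun S hS => ?_⟩, h2⟩, rfl⟩
  refine lt_of_le_of_lt ?_ (h4 S hS)
  exact mul_le_mul_of_nonneg_right hk (Real.rpow_nonneg (zero_le_one.trans (one_le_height h1.1)) _)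

theorem part_one {lam : ℝ} (hlam : 0 < lam) (M : Type) [MetricSpace M]
    (φ : GaussianInt × GaussianInt × GaussianInt → M) {σ : ℝ} (hσ : 0 < σ) :
    ∃ E : Set M, dimH E ≤ ENNReal.ofReal (expo lam / σ) ∧ ∀ z ∉ E, ∀ B : ℝ, (BadNear φ B lam σ z).Finite := by
  obtain ⟨E, h1, h2⟩ := Pool.Agent.H107.ME.dim_family
    (fun t : {t : GaussianInt × GaussianInt × GaussianInt // t.1 ≠ 0} => φ t.1)
    (fun t => height t.1) (fun t => one_le_height t.2) (s := expo lam) (expo_nonneg hlam) hσ
    (fun k : ℕ => {t : {t : GaussianInt × GaussianInt × GaussianInt // t.1 ≠ 0} | t.1 ∈ Bad (k : ℝ) lam})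
    (fun k ε hε => count k hlam hε)
  exact ⟨E, h1, fun z hz B => near_finite (fun k => h2 z hz k) B⟩

theorem expo_mono {a b : ℝ} (h : a ≤ b) : expo a ≤ expo b := by
  unfold expo
  have h1 : min (8 * a / 7) (12 / 11) ≤ min (8 * b / 7) (12 / 11 : ℝ) := min_le_min_right _ (by linarith)
  have h2 : max (a - 1) 0 ≤ max (b - 1) 0 := max_le_max_right _ (by linarith)
  linarith

/-- a larger exponent gives more exceptional triples -/
theorem near_mono {M : Type} [MetricSpace M] {φ : GaussianInt × GaussianInt × GaussianInt → M} {B lam lam' σ σ' : ℝ}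
    {z : M} (hB : 0 ≤ B) (h : lam ≤ lam') (h' : σ' ≤ σ) : BadNear φ B lam σ z ⊆ BadNear φ B lam' σ' z := by
  rintro t ⟨h1, h2, h3⟩
  have ht := one_le_height h1.1
  refine ⟨h1, h2.trans (Real.rpow_le_rpow_of_exponent_le ht (by linarith)), fun h4 => h3 fun S hS => ?_⟩
  refine lt_of_le_of_lt ?_ (h4 S hS)
  exact mul_le_mul_of_nonneg_left (Real.rpow_le_rpow_of_exponent_le ht h) hB

theorem near_mono_B {M : Type} [MetricSpace M] {φ : GaussianInt × GaussianInt × GaussianInt → M} {B B' lam σ : ℝ}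
    {z : M} (hB : B ≤ B') : BadNear φ B lam σ z ⊆ BadNear φ B' lam σ z := by
  rintro t ⟨h1, h2, h3⟩
  have ht := one_le_height h1.1
  refine ⟨h1, h2, fun h4 => h3 fun S hS => ?_⟩
  refine lt_of_le_of_lt ?_ (h4 S hS)
  exact mul_le_mul_of_nonneg_right hB (Real.rpow_nonneg (zero_le_one.trans ht) _)

/-- the exponent is continuous from the right -/
theorem expo_add (lam : ℝ) {u : ℝ} (hu : 0 ≤ u) : expo (lam + u) ≤ expo lam + 22 / 7 * u := by
  unfold expo
  have h1 : min (8 * (lam + u) / 7) (12 / 11) ≤ min (8 * lam / 7) (12 / 11 : ℝ) + 8 / 7 * u := by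
    rcases le_total (8 * lam / 7) (12 / 11 : ℝ) with h | h
    · rw [min_eq_left h]
      exact (min_le_left _ _).trans (by linarith)
    · rw [min_eq_right h]
      exact (min_le_right _ _).trans (by linarith)
  have h2 : max (lam + u - 1) 0 ≤ max (lam - 1) 0 + u := by
    apply max_le
    · have := le_max_left (lam - 1) 0
      linarith
    · have := le_max_right (lam - 1) 0
      linarith
  linarith

/-- almost every point of a space with Haar measure -/
theorem part_two {V : Type} [NormedAddCommGroup V] [NormedSpace ℝ V] [FiniteDimensional ℝ V] [MeasurableSpace V]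
    [BorelSpace V] (μ : Measure V) [μ.IsAddHaarMeasure] (hV : 0 < Module.finrank ℝ V)
    (φ : GaussianInt × GaussianInt × GaussianInt → V) :
    ∀ᵐ z ∂μ, ∀ lam σ : ℝ, 0 < lam → expo lam / Module.finrank ℝ V < σ → ∀ B : ℝ, (BadNear φ B lam σ z).Finite := by
  have hd : (0 : ℝ) < Module.finrank ℝ V := by exact_mod_cast hV
  -- rational parameters
  have h1 : ∀ᵐ z ∂μ, ∀ (q r : ℚ), 0 < (q : ℝ) → expo q / Module.finrank ℝ V < (r : ℝ) →
      ∀ B : ℝ, (BadNear φ B q r z).Finite := by
    rw [ae_all_iff]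
    intro q
    rw [ae_all_iff]
    intro r
    by_cases hq : 0 < (q : ℝ)
    · by_cases hr : expo q / Module.finrank ℝ V < (r : ℝ)
      · have hr0 : 0 < (r : ℝ) := lt_of_le_of_lt (div_nonneg (expo_nonneg hq) hd.le) hr
        obtain ⟨E, h2, h3⟩ := part_one hq V φ hr0
        have h4 : μ E = 0 := by
          have h5 : dimH E < ((Module.finrank ℝ V : ℝ≥0) : ℝ≥0∞) := by
            refine h2.trans_lt ?_
            rw [ENNReal.coe_natCast, ← ENNReal.ofReal_natCast]
            rw [ENNReal.ofReal_lt_ofReal_iff hd, div_lt_iff₀ hr0]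
            rw [div_lt_iff₀ hd] at hr
            linarith
          have h6 : Measure.hausdorffMeasure ((Module.finrank ℝ V : ℝ≥0) : ℝ) E = 0 :=
            hausdorffMeasure_of_dimH_lt h5
          have h7 : ((Module.finrank ℝ V : ℝ≥0) : ℝ) = (Module.finrank ℝ V : ℝ) := by push_cast; rfl
          rw [h7] at h6
          exact (Measure.absolutelyContinuous_isAddHaarMeasure μ
            (Measure.hausdorffMeasure (Module.finrank ℝ V : ℝ))) h6
        filter_upwards [measure_eq_zero_iff_ae_notMem.1 h4] with z hz _ _ B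
        exact h3 z hz B
      · exact Eventually.of_forall fun z _ h => absurd h hr
    · exact Eventually.of_forall fun z h => absurd h hq
  filter_upwards [h1] with z hz lam σ hlam hσ B
  -- approximation of the parameters from above and below
  set g : ℝ := σ - expo lam / Module.finrank ℝ V with hg
  have hg0 : 0 < g := by linarith
  set u : ℝ := g / 2 * Module.finrank ℝ V / (22 / 7) with hu
  have hu0 : 0 < u := by positivity
  obtain ⟨q, hq1, hq2⟩ := exists_rat_btwn (show lam < lam + u by linarith)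
  obtain ⟨r, hr1, hr2⟩ := exists_rat_btwn (show σ - g / 2 < σ by linarith)
  have h2 : expo (q : ℝ) ≤ expo lam + 22 / 7 * u := (expo_mono hq2.le).trans (expo_add lam hu0.le)
  have h3 : expo (q : ℝ) / Module.finrank ℝ V < (r : ℝ) := by
    refine lt_of_le_of_lt ?_ hr1
    rw [div_le_iff₀ hd]
    have e1 : 22 / 7 * u = g / 2 * Module.finrank ℝ V := by
      rw [hu]
      ring
    have e2 : (σ - g / 2) * Module.finrank ℝ V = expo lam + g / 2 * Module.finrank ℝ V := by
      rw [hg]
      field_simp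
      ring
    linarith
  have h4 := hz q r (by linarith) h3 (max B 0)
  exact h4.subset ((near_mono_B (le_max_left B 0)).trans (near_mono (le_max_right _ _) hq1.le hr2.le))

/-- the quotient `a / c` -/
noncomputable def quot (t : GaussianInt × GaussianInt × GaussianInt) : ℂ :=
  GaussianInt.toComplex t.1 / GaussianInt.toComplex t.2.2

/-- **Theorem.** Let `expo lam = min (8 lam / 7) (12 / 11) + 2 max (lam - 1) 0` and let `H = max (|a|, |b|, |c|)`.
(1) For every map `φ` of the triples to a metric space and all `lam, σ > 0` there is a set `E` of Hausdorff dimension at most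
`expo lam / σ` such that for all `z` outside `E` and all `B` all but finitely many coprime triples `a + b = c` with
`dist (φ (a, b, c)) z ≤ H ^ (-σ)` satisfy `rad (abc) > B H ^ lam`.
(2) For almost every `z ∈ ℂ` the following holds for all `lam > 0`, `σ > expo lam / 2` and `B`: all but finitely many coprime
triples `a + b = c` with `|a / c - z| ≤ H ^ (-σ)` satisfy `rad (abc) > B H ^ lam`.
(3) In particular, for almost every `z ∈ ℂ`, all `σ > 6 / 11` and all `B` all but finitely many coprime triples with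
`|a / c - z| ≤ H ^ (-σ)` satisfy `rad (abc) > B H`.
(4) For all `z ∈ ℂ` outside a set of Hausdorff dimension at most `6 / 11`, all but finitely many coprime triples with
`|a / c - z| ≤ H ^ (-2)` satisfy `rad (abc) > B H`, for all `B`. -/
theorem result :
    (∀ lam : ℝ, 0 < lam → ∀ (M : Type) [MetricSpace M] (φ : GaussianInt × GaussianInt × GaussianInt → M) (σ : ℝ),
      0 < σ → ∃ E : Set M, dimH E ≤ ENNReal.ofReal (expo lam / σ) ∧ ∀ z : M, z ∉ E → ∀ B : ℝ,
        {t | Triple t ∧ dist (φ t) z ≤ height t ^ (-σ) ∧ ¬ RadGt t (B * height t ^ lam)}.Finite) ∧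
    (∀ᵐ z : ℂ, ∀ lam σ : ℝ, 0 < lam → expo lam / 2 < σ → ∀ B : ℝ,
      {t | Triple t ∧ ‖quot t - z‖ ≤ height t ^ (-σ) ∧ ¬ RadGt t (B * height t ^ lam)}.Finite) ∧
    (∀ᵐ z : ℂ, ∀ σ : ℝ, 6 / 11 < σ → ∀ B : ℝ,
      {t | Triple t ∧ ‖quot t - z‖ ≤ height t ^ (-σ) ∧ ¬ RadGt t (B * height t)}.Finite) ∧
    (∃ E : Set ℂ, dimH E ≤ ENNReal.ofReal (6 / 11) ∧ ∀ z : ℂ, z ∉ E → ∀ B : ℝ,
      {t | Triple t ∧ ‖quot t - z‖ ≤ height t ^ (-2 : ℝ) ∧ ¬ RadGt t (B * height t)}.Finite) := by
  have e1 : expo 1 = 12 / 11 := by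
    unfold expo
    norm_num
  have h2 : ∀ᵐ z : ℂ, ∀ lam σ : ℝ, 0 < lam → expo lam / 2 < σ → ∀ B : ℝ,
      {t | Triple t ∧ ‖quot t - z‖ ≤ height t ^ (-σ) ∧ ¬ RadGt t (B * height t ^ lam)}.Finite := by
    have h1 := part_two (V := ℂ) volume (by rw [Complex.finrank_real_complex]; norm_num) quot
    filter_upwards [h1] with z hz lam σ hlam hσ B
    have h3 := hz lam σ hlam (by rw [Complex.finrank_real_complex]; exact_mod_cast hσ) B
    refine h3.subset ?_
    rintro t ⟨g1, g2, g3⟩
    exact ⟨g1, by rw [dist_eq_norm]; exact g2, g3⟩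
  refine ⟨fun lam hlam M _ φ σ hσ => part_one hlam M φ hσ, h2, ?_, ?_⟩
  · filter_upwards [h2] with z hz σ hσ B
    refine (hz 1 σ one_pos (by rw [e1]; linarith) B).subset ?_
    rintro t ⟨g1, g2, g3⟩
    exact ⟨g1, g2, by rw [Real.rpow_one]; exact g3⟩
  · obtain ⟨E, h3, h4⟩ := part_one one_pos ℂ quot two_pos
    refine ⟨E, ?_, fun z hz B => (h4 z hz B).subset ?_⟩
    · refine h3.trans (le_of_eq ?_)
      rw [e1]
      norm_num
    · rintro t ⟨g1, g2, g3⟩
      exact ⟨g1, by rw [dist_eq_norm]; exact g2, by rw [Real.rpow_one]; exact g3⟩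

end Pool.Agent.Results.MP_dc323a_nt.NearAlmostEveryPoint
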