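import Pool.Agent.Results.MP_dc323a_nt.AllThinSetsAtOnce
import Pool.Agent.V11326.WOE

/-!
# The abc inequality over the Gaussian integers for ALL triples, of whatever size, with radicals in windows

Let `M > 1 / 3` and let `v_n ≥ 1` be a sequence, for example `v_n = 2 ^ n`. For all real `β` outside a set `F` of Hausdorff
dimension less than one (and of measure zero) and all `c > 0`: if `n` is large, then ALL triples `a + b = c'` of coprime nonzero
Gaussian integers, of whatever size, with `|rad(abc') ^ (4 / 3) - β v_n| ≤ v_n ^ θ` satisfy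
`max {|a|, |b|, |c'|} < c rad(abc') ^ M`. There are `X ^ (4 / 3 + o(1))` triples with `rad ≤ X`.

More generally, let `D ≥ 1`, `q ≥ 3` and `M > D / q`. There is `η > 0` such that for all `β` outside a small set `F`, all
`c > 0` and all large `n`, this inequality holds for ALL triples with `|rad ^ (4 / q) - β v_n| ≤ v_n ^ θ` on ALL curves
`t ↦ (P 0 (t) : P 1 (t) : P 2 (t))` of degree `D` with Gaussian integer coefficients of absolute value at most `v_n ^ η`, all
of whose `q` points over the three points with `abc' = 0` are defined over `ℚ(i)`.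

The proof combines the starting result `AllThinSetsAtOnce` with a covering argument. The definitions of `size`, `rad`,
`Triples`, `Curve`, `OnCurve` are those of that file.
-/

set_option autoImplicit false

namespace Pool.Agent.Results.MP_dc323a_nt.RadicalWindows

open Polynomial MeasureTheory
open Pool.Agent.Results.MP_dc323a_nt.AllThinSetsAtOnce

/-- The exponent of convergence of the sequence `v` is at most `τ`: the sum of the `v_n ^ (-p)` converges for all
`p > τ`. -/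
def ExpLe (v : ℕ → ℝ) (τ : ℝ) : Prop := ∀ p : ℝ, τ < p → Summable fun n => (v n) ^ (-p)

/-- `rad(a b (a + b))` for the pair `p = (a, b)` -/
noncomputable def radical (p : GaussianInt × GaussianInt) : ℝ := rad (p.1 * p.2 * (p.1 + p.2))

theorem radical_pos {p : GaussianInt × GaussianInt} (h : p ∈ Triples) : 0 < radical p :=
  lt_of_lt_of_le one_pos (one_le_rad h)

theorem curve_mono {D q : ℕ} {B B' : ℝ} {P : Fin 3 → GaussianInt[X]} (h : Curve D q B P) (hB : B ≤ B') :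
    Curve D q B' P :=
  ⟨h.ne_zero, h.sum_eq, h.coprime, h.splits, h.degree_le, h.degree_eq, h.points, fun i k => (h.small i k).trans hB⟩

/-- the curve `t ↦ (t : 1 : t + 1)` -/
noncomputable def line : Fin 3 → GaussianInt[X] := ![X, 1, X + C 1]

theorem toQi_line0 : toQi (line 0) = X := by
  show (X : GaussianInt[X]).map (algebraMap GaussianInt Qi) = X
  exact Polynomial.map_X _

theorem toQi_line1 : toQi (line 1) = 1 := by
  show (1 : GaussianInt[X]).map (algebraMap GaussianInt Qi) = 1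
  exact Polynomial.map_one _

theorem toQi_line2 : toQi (line 2) = X + C 1 := by
  show (X + C 1 : GaussianInt[X]).map (algebraMap GaussianInt Qi) = X + C 1
  rw [Polynomial.map_add, Polynomial.map_X, Polynomial.map_C, map_one]

theorem line_curve : ∃ B : ℝ, Curve 1 3 B line := by
  classical
  have hne : (X + C 1 : GaussianInt[X]) ≠ 0 := X_add_C_ne_zero 1
  have hprod : ∏ i, toQi (line i) = X * (X + C 1) := by
    rw [Fin.prod_univ_three, toQi_line0, toQi_line1, toQi_line2, mul_one]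
  have hdeg : ∀ i, (line i).natDegree ≤ 1 := by
    intro i
    fin_cases i
    · show (X : GaussianInt[X]).natDegree ≤ 1
      rw [natDegree_X]
    · show (1 : GaussianInt[X]).natDegree ≤ 1
      rw [natDegree_one]
      norm_num
    · show (X + C 1 : GaussianInt[X]).natDegree ≤ 1
      rw [natDegree_X_add_C]
  have hsm : ∀ i, ∃ B : ℝ, ∀ k, ‖GaussianInt.toComplex ((line i).coeff k)‖ ≤ B := by
    intro i
    refine ⟨∑ j ∈ Finset.range 2, ‖GaussianInt.toComplex ((line i).coeff j)‖, fun k => ?_⟩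
    by_cases hk : k < 2
    · exact Finset.single_le_sum (f := fun j => ‖GaussianInt.toComplex ((line i).coeff j)‖)
        (fun j _ => norm_nonneg _) (Finset.mem_range.2 hk)
    · rw [coeff_eq_zero_of_natDegree_lt (lt_of_le_of_lt (hdeg i) (by omega)), map_zero, norm_zero]
      exact Finset.sum_nonneg fun j _ => norm_nonneg _
  choose B hB using hsm
  refine ⟨∑ i, |B i|, ⟨fun i => ?_, ?_, ?_, fun i => Splits.of_natDegree_le_one ((natDegree_map_le).trans (hdeg i)), hdeg,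
    ⟨0, natDegree_X⟩, ?_, fun i k => ?_⟩⟩
  · fin_cases i
    · exact X_ne_zero
    · exact one_ne_zero
    · exact hne
  · show X + 1 = (X + C 1 : GaussianInt[X])
    rw [C_1]
  · rw [toQi_line1]
    exact isCoprime_one_right
  · unfold zeros
    have h1 : (∏ i, toQi (line i)).roots = ({0} : Multiset Qi) + {-1} := by
      rw [hprod, roots_mul (mul_ne_zero X_ne_zero (X_add_C_ne_zero 1)), roots_X, roots_X_add_C]
    have h2 : (({0} : Multiset Qi) + {-1}).Nodup := by
      rw [Multiset.singleton_add, Multiset.nodup_cons]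
      refine ⟨?_, Multiset.nodup_singleton _⟩
      rw [Multiset.mem_singleton]
      exact (neg_ne_zero.2 one_ne_zero).symm
    rw [h1, Multiset.toFinset_card_of_nodup h2, if_pos ⟨1, by
      show (1 : GaussianInt[X]).natDegree < 1
      rw [natDegree_one]
      norm_num⟩]
    rfl
  · exact ((hB i k).trans (le_abs_self _)).trans
      (Finset.single_le_sum (f := fun j => |B j|) (fun j _ => abs_nonneg _) (Finset.mem_univ i))

theorem on_line {p : GaussianInt × GaussianInt} (hp : p ∈ Triples) : p ∈ OnCurve 1 line := by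
  have hb : algebraMap GaussianInt Qi p.2 ≠ 0 := by
    intro h
    exact hp.2.1 ((IsFractionRing.injective GaussianInt Qi) (h.trans (map_zero _).symm))
  refine ⟨hp, some (algebraMap GaussianInt Qi p.1 / algebraMap GaussianInt Qi p.2), algebraMap GaussianInt Qi p.2, ?_, ?_⟩
  · show algebraMap GaussianInt Qi p.1 = algebraMap GaussianInt Qi p.2 *
      (toQi (line 0)).eval (algebraMap GaussianInt Qi p.1 / algebraMap GaussianInt Qi p.2)
    rw [toQi_line0, eval_X]
    field_simp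
  · show algebraMap GaussianInt Qi p.2 = algebraMap GaussianInt Qi p.2 *
      (toQi (line 1)).eval (algebraMap GaussianInt Qi p.1 / algebraMap GaussianInt Qi p.2)
    rw [toQi_line1, eval_one, mul_one]

theorem curves (D q : ℕ) (hD : 1 ≤ D) (hq : 3 ≤ q) (M : ℝ)
    (hM : (D : ℝ) / q < M) : ∃ η ν : ℝ, 0 < η ∧ 0 < ν ∧ ν ≤ 1 ∧ ∀ (v : ℕ → ℝ) (τ θ : ℝ), (∀ n, 1 ≤ v n) → 0 ≤ τ →
      ExpLe v τ → θ < 1 → ∃ F : Set ℝ, dimH F ≤ ENNReal.ofReal ((1 - ν + τ) / (1 - θ)) ∧ (τ + θ < ν → volume F = 0) ∧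
        ∀ β : ℝ, β ∉ F → ∀ c : ℝ, 0 < c → ∃ n₀ : ℕ, ∀ n : ℕ, n₀ ≤ n →
          ∀ P : Fin 3 → GaussianInt[X], Curve D q ((v n) ^ η) P → ∀ p ∈ OnCurve D P,
            |radical p ^ (4 / (q : ℝ)) - β * v n| ≤ (v n) ^ θ → size p.1 p.2 < c * radical p ^ M := by
  obtain ⟨-, -, h2, -⟩ := AllThinSetsAtOnce.result D q hD hq
  obtain ⟨η, ν, hη, hν, hE⟩ := h2 M hM
  have hq0 : (0 : ℝ) < q := by exact_mod_cast (by omega : 0 < q)
  have hC : ∀ i : ℕ, ∃ C : ℝ, ∀ X : ℝ, 1 ≤ X → (Exceptions D q η M (1 / ((i : ℝ) + 1)) X).Finite ∧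
        ((Exceptions D q η M (1 / ((i : ℝ) + 1)) X).ncard : ℝ) ≤ C * X ^ (4 / (q : ℝ) - ν) :=
    fun i => (hE (1 / ((i : ℝ) + 1)) (by positivity)).1
  choose C hC using hC
  obtain ⟨e, he⟩ : ∃ e : ℝ, e = 4 / (q : ℝ) := ⟨_, rfl⟩
  have he0 : 0 < e := by rw [he]; positivity
  rw [← he] at hC ⊢
  refine ⟨η / e, min (ν / e) 1, by positivity, lt_min (by positivity) one_pos, min_le_right _ _,
    fun v τ θ hv hτ hvτ hθ => ?_⟩
  obtain ⟨F, hF, hF0, h⟩ := Pool.Agent.V11326.WOE.scaled (ι := ℕ) (T := GaussianInt × GaussianInt)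
    (e := e) (ν := ν) he0 hν C (fun i X => Exceptions D q η M (1 / ((i : ℝ) + 1)) X) hC
    hv hτ hvτ hθ
    (fun i n => {p | ∃ P : Fin 3 → GaussianInt[X], Curve D q ((v n) ^ (η / e)) P ∧ p ∈ OnCurve D P ∧
      1 / ((i : ℝ) + 1) * radical p ^ M ≤ size p.1 p.2})
    (fun _ p => Real.log (radical p)) (by
      rintro i n X hvX hX p ⟨P, hP, hp, hex⟩ hN
      have hX0 : 0 < X := by linarith
      have hv0 : 0 < v n := lt_of_lt_of_le one_pos (hv n)
      refine ⟨⟨P, curve_mono hP ?_, hp, (Real.log_le_log_iff (radical_pos hp.1) hX0).1 hN⟩, hex⟩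
      calc (v n) ^ (η / e) ≤ (X ^ e) ^ (η / e) := Real.rpow_le_rpow hv0.le hvX (by positivity)
        _ = X ^ η := by
            rw [← Real.rpow_mul hX0.le]
            congr 1
            field_simp)
  refine ⟨F, hF, hF0, fun β hβ c hc => ?_⟩
  obtain ⟨i, hi⟩ := exists_nat_one_div_lt hc
  obtain ⟨n₀, hn⟩ := h β hβ i
  refine ⟨n₀, fun n hnn P hP p hp hw => ?_⟩
  by_contra hcon
  push Not at hcon
  have hr := radical_pos hp.1
  refine hn n hnn p ?_ ⟨P, hP, hp, ?_⟩
  · show |Real.exp (e * Real.log (radical p)) - β * v n| ≤ (v n) ^ θ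
    rw [mul_comm e, ← Real.rpow_def_of_pos hr]
    exact hw
  · refine le_trans (mul_le_mul_of_nonneg_right hi.le (Real.rpow_nonneg hr.le _)) hcon

/-- **Main result.** -/
theorem result :
    (∀ M : ℝ, 1 / 3 < M → ∃ ν : ℝ, 0 < ν ∧ ν ≤ 1 ∧ ∀ (v : ℕ → ℝ) (τ θ : ℝ), (∀ n, 1 ≤ v n) → 0 ≤ τ → ExpLe v τ →
      θ < 1 → ∃ F : Set ℝ, dimH F ≤ ENNReal.ofReal ((1 - ν + τ) / (1 - θ)) ∧ (τ + θ < ν → volume F = 0) ∧
        ∀ β : ℝ, β ∉ F → ∀ c : ℝ, 0 < c → ∃ n₀ : ℕ, ∀ n : ℕ, n₀ ≤ n → ∀ p ∈ Triples,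
          |radical p ^ (4 / 3 : ℝ) - β * v n| ≤ (v n) ^ θ → size p.1 p.2 < c * radical p ^ M) ∧
    (∀ D q : ℕ, 1 ≤ D → 3 ≤ q → ∀ M : ℝ, (D : ℝ) / q < M → ∃ η ν : ℝ, 0 < η ∧ 0 < ν ∧ ν ≤ 1 ∧
      ∀ (v : ℕ → ℝ) (τ θ : ℝ), (∀ n, 1 ≤ v n) → 0 ≤ τ → ExpLe v τ → θ < 1 →
      ∃ F : Set ℝ, dimH F ≤ ENNReal.ofReal ((1 - ν + τ) / (1 - θ)) ∧ (τ + θ < ν → volume F = 0) ∧
        ∀ β : ℝ, β ∉ F → ∀ c : ℝ, 0 < c → ∃ n₀ : ℕ, ∀ n : ℕ, n₀ ≤ n →
          ∀ P : Fin 3 → GaussianInt[X], Curve D q ((v n) ^ η) P → ∀ p ∈ OnCurve D P,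
            |radical p ^ (4 / (q : ℝ)) - β * v n| ≤ (v n) ^ θ → size p.1 p.2 < c * radical p ^ M) := by
  refine ⟨fun M hM => ?_, fun D q hD hq M hM => curves D q hD hq M hM⟩
  obtain ⟨η, ν, hη, hν, hν1, h⟩ := curves 1 3 le_rfl le_rfl M (by norm_num at hM ⊢; exact hM)
  refine ⟨ν, hν, hν1, fun v τ θ hv hτ hvτ hθ => ?_⟩
  obtain ⟨F, hF, hF0, h1⟩ := h v τ θ hv hτ hvτ hθ
  refine ⟨F, hF, hF0, fun β hβ c hc => ?_⟩
  obtain ⟨n₀, hn⟩ := h1 β hβ c hc
  obtain ⟨B, hB⟩ := line_curve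
  have htv : Filter.Tendsto v Filter.atTop Filter.atTop :=
    Pool.Agent.Y854.GM.tendsto_of_expLe (fun n => lt_of_lt_of_le one_pos (hv n)) hτ hvτ
  have htv' : Filter.Tendsto (fun n => (v n) ^ η) Filter.atTop Filter.atTop := (tendsto_rpow_atTop hη).comp htv
  obtain ⟨n₁, hn₁⟩ := ((Filter.tendsto_atTop.1 htv' B)).exists_forall_of_atTop
  refine ⟨max n₀ n₁, fun n hnn p hp hw => ?_⟩
  have h2 := hn₁ n ((le_max_right _ _).trans hnn)
  refine hn n ((le_max_left _ _).trans hnn) line (curve_mono hB h2) p (on_line hp) ?_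
  have e : (4 / ((3 : ℕ) : ℝ)) = 4 / 3 := by norm_num
  rw [e]
  exact hw

end Pool.Agent.Results.MP_dc323a_nt.RadicalWindows
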