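import Pool.Agent.Results.MP_dc323a_nt.WindowsWithoutExceptions
import Pool.Agent.V11001.KM.Near

/-!
# The abc conjecture over the Gaussian integers near the powers of almost every real number

Let `ν n / log n → ∞`, for example `ν n = n`, and `λ > 0`, `expo λ = min (4 λ / 7) (6 / 11) + max (λ - 1) 0`. For almost
every real `x > 1`, all `θ < 1 - expo λ` and each `K`, ALL coprime triples `a + b = c` of nonzero Gaussian integers with
a sufficiently large `H = max (|a|, |b|, |c|)` such that `|H ^ 2 - x ^ (ν n)| ≤ x ^ (θ ν n)` for some `n` have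
`rad (abc) > K H ^ λ`.
-/

set_option autoImplicit false

namespace Pool.Agent.Results.MP_dc323a_nt.TriplesNearPowers

open Pool.Agent.V11001.KM
open WindowsWithoutExceptions (IsPrimeSystem height expo All count)

/-- all the coprime triples `a + b = c` of nonzero Gaussian integers with a sufficiently large `H` and with `H ^ 2` near
the numbers `β x ^ (ν n)` have `rad (abc) > K H ^ lam`, for all `K` -/
def Law (ν : ℕ → ℝ) (lam θ β x : ℝ) : Prop :=
  ∀ K : ℝ, ∃ H₀ : ℝ, ∀ a b c : GaussianInt, a ≠ 0 → b ≠ 0 → c ≠ 0 → a + b = c → IsCoprime a b →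
    H₀ ≤ height (a, b, c) ^ 2 → Near ν θ β x (height (a, b, c) ^ 2) →
      ∀ S : Finset GaussianInt, IsPrimeSystem S (a * b * c) →
        K * height (a, b, c) ^ lam < ∏ Q ∈ S, ‖GaussianInt.toComplex Q‖

lemma law_of {ν : ℕ → ℝ} {lam θ β x : ℝ}
    (h : ∀ k : ℕ, ∃ H₀ : ℝ, ∀ t ∈ All (k : ℝ) lam, Near ν θ β x (height t ^ 2) → height t ^ 2 < H₀) :
    Law ν lam θ β x := by
  intro K
  obtain ⟨k, hk⟩ := exists_nat_ge K
  obtain ⟨H₀, hH⟩ := h k
  refine ⟨H₀, fun a b c ha hb hc habc hcop h1 h2 S hS => ?_⟩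
  by_contra hcon
  push Not at hcon
  have hpos : 0 ≤ height (a, b, c) := (norm_nonneg _).trans (le_max_left _ _)
  refine absurd (hH (a, b, c) (Set.mem_iUnion.2 ⟨height (a, b, c), ha, hb, hc, habc, hcop, le_refl _, S, hS,
    hcon.trans ?_⟩) h2) (not_lt.2 h1)
  exact mul_le_mul_of_nonneg_right hk (Real.rpow_nonneg hpos _)

/-- **Theorem.** Let `ν n / log n → ∞`, let `B` be a countable set of real numbers and
`expo λ = min (4 λ / 7) (6 / 11) + max (λ - 1) 0`.
(1) For `λ > 0` and `θ < 1` there is a set `E` of Hausdorff dimension at most `expo λ / (1 - θ)` such that for each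
`x > 1` outside `E` and each positive `β` in `B` the law holds: for each `K` ALL coprime triples `a + b = c` of nonzero
Gaussian integers with a sufficiently large `H = max (|a|, |b|, |c|)` such that `|H ^ 2 - β x ^ (ν n)| ≤ x ^ (θ ν n)` for
some `n` have `rad (abc) > K H ^ λ`.
(2) For each `λ > 0` and almost every real `x > 1` the law holds for all `θ < 1 - expo λ`. -/
theorem result : ∀ ν : ℕ → ℝ, Fast ν → ∀ B : Set ℝ, B.Countable → ∀ lam : ℝ, 0 < lam →
    (∀ θ : ℝ, θ < 1 → ∃ E : Set ℝ, dimH E ≤ ENNReal.ofReal (expo lam / (1 - θ)) ∧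
      ∀ x : ℝ, 1 < x → x ∉ E → ∀ β ∈ B, 0 < β → Law ν lam θ β x) ∧
    (∀ᵐ x : ℝ, 1 < x → ∀ θ : ℝ, θ < 1 - expo lam → ∀ β ∈ B, 0 < β → Law ν lam θ β x) := by
  intro ν hν B hB lam hlam
  have hs : 0 ≤ expo lam := add_nonneg (le_min (by positivity) (by norm_num)) (le_max_right _ _)
  refine ⟨fun θ hθ => ?_, ?_⟩
  · obtain ⟨E, h1, h2⟩ := family_threshold (fun t => height t ^ 2) hν hs hθ B hB (J := ℕ)
      (fun k => All (k : ℝ) lam) (fun k ε hε => count k lam ε hlam hε)
    exact ⟨E, h1, fun x hx hxE β hβ hβ0 => law_of (h2 x hx hxE β hβ hβ0)⟩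
  · filter_upwards [ae_family_threshold (fun t => height t ^ 2) hν hs B hB (J := ℕ)
      (fun k => All (k : ℝ) lam) (fun k ε hε => count k lam ε hlam hε)] with x hx hx1 θ hθ β hβ hβ0
    exact law_of (hx hx1 θ hθ β hβ hβ0)

end Pool.Agent.Results.MP_dc323a_nt.TriplesNearPowers
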